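import Mathlib
import Pool.Agent.CPT.StmtsA

/-!
# Squad CPT, row CHB (helper27): comparison of binomial coefficients.
-/

set_option autoImplicit false

namespace Pool.Agent.CPT.H27

open Pool.Agent.CPT

theorem chb : ChbStmt := by
  intro n A c
  induction n with
  | zero => simp
  | succ n ih =>
    have h1 : (A + c + n + 1) * (A + c + n).choose n =
        (A + c + (n + 1)).choose (n + 1) * (n + 1) :=
      Nat.add_one_mul_choose_eq (A + c + n) n
    have h2 : (A + n + 1) * (A + n).choose n = (A + (n + 1)).choose (n + 1) * (n + 1) :=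
      Nat.add_one_mul_choose_eq (A + n) n
    have h3 : (A + c + n + 1) * (A + 1) ≤ (A + n + 1) * (A + c + 1) := by nlinarith
    refine Nat.le_of_mul_le_mul_right ?_ (Nat.succ_pos n)
    calc (A + c + (n + 1)).choose (n + 1) * (A + 1) ^ (n + 1) * (n + 1)
        = ((A + c + (n + 1)).choose (n + 1) * (n + 1)) * (A + 1) ^ (n + 1) := by ring
      _ = ((A + c + n + 1) * (A + 1)) * ((A + c + n).choose n * (A + 1) ^ n) := by
          rw [← h1]
          ring
      _ ≤ ((A + n + 1) * (A + c + 1)) * ((A + n).choose n * (A + c + 1) ^ n) :=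
          Nat.mul_le_mul h3 ih
      _ = ((A + n + 1) * (A + n).choose n) * (A + c + 1) ^ (n + 1) := by ring
      _ = (A + (n + 1)).choose (n + 1) * (A + c + 1) ^ (n + 1) * (n + 1) := by
          rw [h2]
          ring

end Pool.Agent.CPT.H27
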