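import Mathlib
import Pool.Agent.CPT.StmtsC

/-!
# Squad CPT, row PTS (helper27): the list of the parameters.
-/

set_option autoImplicit false

namespace Pool.Agent.CPT.H27

open Pool.Agent.CPT

theorem list_sum_range (f : ℕ → ℕ) (n : ℕ) :
    ((List.range n).map f).sum = ∑ i ∈ Finset.range n, f i := by
  induction n with
  | zero => simp
  | succ n ih =>
    rw [List.range_succ, List.map_append, List.sum_append, ih, Finset.sum_range_succ]
    simp

theorem mem_pts (m : ℕ) : ∀ (K : ℕ) (c : Fin m → ℕ), 1 ≤ K →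
    (c ∈ pts m K ↔ ∏ i, max 1 (c i) ≤ K) := by
  induction m with
  | zero =>
    intro K c hK
    have h : c = fun i => i.elim0 := funext fun i => i.elim0
    simp [pts, h, hK]
  | succ m ih =>
    intro K c hK
    rw [Fin.prod_univ_succ]
    have hP : 1 ≤ ∏ i : Fin m, max 1 (c i.succ) :=
      Finset.one_le_prod' fun i _ => le_max_left _ _
    unfold pts
    rw [List.mem_flatMap]
    constructor
    · rintro ⟨a, ha, hc⟩
      rw [List.mem_map] at hc
      obtain ⟨c', hc', rfl⟩ := hc
      rw [List.mem_range] at ha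
      have ha' : max 1 a ≤ K := max_le hK (by omega)
      have h0 : 0 < max 1 a := lt_of_lt_of_le Nat.one_pos (le_max_left _ _)
      have h1 : 1 ≤ K / max 1 a := (Nat.one_le_div_iff h0).2 ha'
      have h2 := (ih _ c' h1).1 hc'
      rw [Nat.le_div_iff_mul_le h0] at h2
      simp only [Fin.cons_zero, Fin.cons_succ]
      rw [mul_comm]
      exact h2
    · intro h
      have h0 : 0 < max 1 (c 0) := lt_of_lt_of_le Nat.one_pos (le_max_left _ _)
      have ha : max 1 (c 0) ≤ K := by
        calc max 1 (c 0) = max 1 (c 0) * 1 := (mul_one _).symm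
          _ ≤ max 1 (c 0) * ∏ i : Fin m, max 1 (c i.succ) := Nat.mul_le_mul_left _ hP
          _ ≤ K := h
      have hc0 : c 0 ≤ K := (le_max_right _ _).trans ha
      have h1 : 1 ≤ K / max 1 (c 0) := (Nat.one_le_div_iff h0).2 ha
      refine ⟨c 0, List.mem_range.2 (by omega), ?_⟩
      rw [List.mem_map]
      refine ⟨fun i => c i.succ, ?_, ?_⟩
      · rw [ih _ _ h1, Nat.le_div_iff_mul_le h0, mul_comm]
        exact h
      · exact Fin.cons_self_tail c

theorem sum_inv_sq (K : ℕ) (hK : 1 ≤ K) :
    ∑ a ∈ Finset.range K, (1 : ℝ) / ((a : ℝ) + 1) ^ 2 ≤ 2 - 1 / (K : ℝ) := by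
  induction K with
  | zero => omega
  | succ K ih =>
    rcases Nat.eq_zero_or_pos K with rfl | hpos
    · norm_num
    · rw [Finset.sum_range_succ]
      have h := ih hpos
      have hK0 : (0 : ℝ) < K := by exact_mod_cast hpos
      have h2 : (1 : ℝ) / ((K : ℝ) + 1) ^ 2 ≤ 1 / K - 1 / ((K : ℝ) + 1) := by
        rw [div_sub_div _ _ hK0.ne' (by positivity), div_le_div_iff₀ (by positivity) (by positivity)]
        nlinarith
      push_cast
      linarith

theorem len_pts (m : ℕ) : ∀ K : ℕ, 1 ≤ K → (pts m K).length ≤ K ^ 2 * 3 ^ m := by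
  induction m with
  | zero =>
    intro K hK
    have : 1 ≤ K ^ 2 := Nat.one_le_pow _ _ hK
    simpa [pts] using this
  | succ m ih =>
    intro K hK
    have h1 : (pts (m + 1) K).length =
        ∑ a ∈ Finset.range (K + 1), (pts m (K / max 1 a)).length := by
      rw [← list_sum_range]
      change (List.flatMap (fun a => (pts m (K / max 1 a)).map
        fun c => (Fin.cons a c : Fin (m + 1) → ℕ)) (List.range (K + 1))).length = _
      rw [List.length_flatMap]
      congr 1
      refine List.map_congr_left fun a _ => ?_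
      rw [List.length_map]
    rw [h1, Finset.sum_range_succ']
    have h0 : (pts m (K / max 1 0)).length ≤ K ^ 2 * 3 ^ m := by
      have := ih K hK
      simpa using this
    have h2 : ∑ a ∈ Finset.range K, (pts m (K / max 1 (a + 1))).length ≤
        (∑ a ∈ Finset.range K, (K / (a + 1)) ^ 2) * 3 ^ m := by
      rw [Finset.sum_mul]
      refine Finset.sum_le_sum fun a ha => ?_
      have ha' := Finset.mem_range.1 ha
      rw [max_eq_right (by omega)]
      exact ih _ ((Nat.one_le_div_iff (by omega)).2 (by omega))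
    have h3 : ∑ a ∈ Finset.range K, (K / (a + 1)) ^ 2 ≤ 2 * K ^ 2 := by
      have h4 : ((∑ a ∈ Finset.range K, (K / (a + 1)) ^ 2 : ℕ) : ℝ) ≤ ((2 * K ^ 2 : ℕ) : ℝ) := by
        push_cast
        calc ∑ a ∈ Finset.range K, ((K / (a + 1) : ℕ) : ℝ) ^ 2
            ≤ ∑ a ∈ Finset.range K, (K : ℝ) ^ 2 * (1 / ((a : ℝ) + 1) ^ 2) := by
              refine Finset.sum_le_sum fun a _ => ?_
              have h5 : ((K / (a + 1) : ℕ) : ℝ) ≤ (K : ℝ) / ((a : ℝ) + 1) := by
                have := @Nat.cast_div_le ℝ _ _ _ K (a + 1)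
                push_cast at this
                exact this
              calc ((K / (a + 1) : ℕ) : ℝ) ^ 2 ≤ ((K : ℝ) / ((a : ℝ) + 1)) ^ 2 :=
                    pow_le_pow_left₀ (Nat.cast_nonneg _) h5 2
                _ = (K : ℝ) ^ 2 * (1 / ((a : ℝ) + 1) ^ 2) := by
                    rw [div_pow]
                    ring
          _ = (K : ℝ) ^ 2 * ∑ a ∈ Finset.range K, (1 : ℝ) / ((a : ℝ) + 1) ^ 2 := by
              rw [Finset.mul_sum]
          _ ≤ (K : ℝ) ^ 2 * 2 := by
              refine mul_le_mul_of_nonneg_left ?_ (by positivity)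
              have h6 := sum_inv_sq K hK
              have h7 : (0 : ℝ) ≤ 1 / (K : ℝ) := by positivity
              linarith
          _ = 2 * (K : ℝ) ^ 2 := by ring
      exact_mod_cast h4
    calc ∑ a ∈ Finset.range K, (pts m (K / max 1 (a + 1))).length + (pts m (K / max 1 0)).length
        ≤ (2 * K ^ 2) * 3 ^ m + K ^ 2 * 3 ^ m :=
          add_le_add (h2.trans (Nat.mul_le_mul_right _ h3)) h0
      _ = K ^ 2 * 3 ^ (m + 1) := by ring

theorem ptsRow : PtsStmt := ⟨fun m K c hK => mem_pts m K c hK, fun m K hK => len_pts m K hK⟩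

end Pool.Agent.CPT.H27
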